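import Pool.Agent.Helper76_TOR.TwQ
import Pool.Agent.Helper96_TOR.Trv

/-! TOW, GEN0: the loops in the orbit of the last letter b generate the base surface group. -/

set_option autoImplicit false

namespace Pool.Agent.TOW.H98

open FreeGroup Pool.Agent.TOR Pool.Agent.TOR.H59 Pool.Agent.TOR96

/-- the automorphism of two neighbouring handles, value at x' -/
theorem tw3x (j r : ℕ) (n : ℕ) (hn : n = j + (2 + r)) (i i' : Fin n) (hi : i.val = j)
    (hi' : i'.val = j + 1) :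
    ∃ Ψ : MulAut (FreeGroup (Fin 2 × Fin n)), Ψ (zeta n) = zeta n ∧
      Ψ (FreeGroup.of (0, i')) = ((FreeGroup.of (1, i))⁻¹ * FreeGroup.of (0, i') *
        FreeGroup.of (1, i') * (FreeGroup.of (0, i'))⁻¹)⁻¹ * FreeGroup.of (0, i') := by
  subst hn
  have e0 : i = Fin.natAdd j (Fin.castAdd r 0) := Fin.ext (by simp [hi])
  have e1 : i' = Fin.natAdd j (Fin.castAdd r 1) := Fin.ext (by simp [hi'])
  subst e0
  subst e1
  obtain ⟨ψ, h0, h1, h2, h3, h4⟩ := two_handles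
  obtain ⟨Ψ, g1, g2, g3⟩ := exists_block j 2 r ψ h0
  have k3 := g2 (FreeGroup.of (0, 1))
  rw [h3] at k3
  simp only [_root_.map_mul, _root_.map_inv, FreeGroup.map.of] at k3
  exact ⟨Ψ, g1, k3⟩

theorem gen0 : GEN0 := by
  intro g
  let C : Subgroup (FreeGroup (Fin 2 × Fin (g + 1))) :=
    Subgroup.closure (Orb (hj g 0) (om g 0) (of (bj g 0)))
  have hmd : ∀ φ : MulAut (FreeGroup (Fin 2 × Fin (g + 1))), φ (zeta (g + 1)) = zeta (g + 1) →
      φ ∈ Md (hj g 0) (om g 0) := fun φ h => ⟨h, fun e => Empty.elim e⟩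
  have hinv : ∀ φ : MulAut (FreeGroup (Fin 2 × Fin (g + 1))), φ (zeta (g + 1)) = zeta (g + 1) →
      ∀ c ∈ C, φ c ∈ C := by
    intro φ h c hc
    have h1 : C ≤ C.comap φ.toMonoidHom := by
      rw [Subgroup.closure_le]
      intro γ hγ
      exact Subgroup.subset_closure (orb_ap hγ (hmd φ h))
    exact h1 hc
  have hx : ∀ i : Fin (g + 1), FreeGroup.of ((1 : Fin 2), i) ∈ C →
      FreeGroup.of ((0 : Fin 2), i) ∈ C := by
    intro i hi
    obtain ⟨Ψ, h1, h2, _⟩ := tw2 i.val (g - i.val) 1 (g + 1) (by have := i.2; omega) i rfl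
    have h3 := hinv Ψ h1 _ hi
    rw [h2, zpow_one] at h3
    have h4 := C.mul_mem (C.inv_mem hi) h3
    rwa [inv_mul_cancel_left] at h4
  have main : ∀ (d : ℕ) (i : Fin (g + 1)), i.val + d = g → FreeGroup.of ((1 : Fin 2), i) ∈ C := by
    intro d
    induction d with
    | zero =>
      intro i hi
      have : i = Fin.last g := Fin.ext (by simpa using hi)
      rw [this]
      exact Subgroup.subset_closure orb_self
    | succ d ih =>
      intro i hi
      have hlt : i.val + 1 < g + 1 := by omega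
      have h1 := ih ⟨i.val + 1, hlt⟩ (by simp only; omega)
      have h2 := hx _ h1
      obtain ⟨Ψ, h3, h4⟩ := tw3x i.val d (g + 1) (by omega) i ⟨i.val + 1, hlt⟩ rfl rfl
      have h5 := hinv Ψ h3 _ h2
      rw [h4] at h5
      have h6 := C.inv_mem (C.mul_mem h5 (C.inv_mem h2))
      have h7 := C.inv_mem (C.mul_mem (C.mul_mem h6 h2) (C.inv_mem (C.mul_mem h2 h1)))
      -- c * x' * (x' y')⁻¹ = y⁻¹
      have e : ((((FreeGroup.of ((1 : Fin 2), i))⁻¹ * FreeGroup.of ((0 : Fin 2), ⟨i.val + 1, hlt⟩) *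
          FreeGroup.of (1, ⟨i.val + 1, hlt⟩) * (FreeGroup.of (0, ⟨i.val + 1, hlt⟩))⁻¹)⁻¹ *
          FreeGroup.of (0, ⟨i.val + 1, hlt⟩) *
          (FreeGroup.of (0, ⟨i.val + 1, hlt⟩))⁻¹)⁻¹ * FreeGroup.of (0, ⟨i.val + 1, hlt⟩) *
          (FreeGroup.of (0, ⟨i.val + 1, hlt⟩) * FreeGroup.of (1, ⟨i.val + 1, hlt⟩))⁻¹)⁻¹ =
          (FreeGroup.of ((1 : Fin 2), i) : FreeGroup (Fin 2 × Fin (g + 1))) := by group
      rwa [e] at h7
  show C = ⊤
  rw [eq_top_iff, ← FreeGroup.closure_range_of, Subgroup.closure_le]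
  rintro _ ⟨⟨a, i⟩, rfl⟩
  have h1 := main (g - i.val) i (by have := i.2; omega)
  have ha : a = 0 ∨ a = 1 := by fin_cases a <;> simp
  rcases ha with rfl | rfl
  · exact hx i h1
  · exact h1

end Pool.Agent.TOW.H98
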